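import Pool.Agent.TH625.GM.Final

/-!
A Hecke-Maass cusp form all of whose quadratic twists vanish at the centre.

Let `φ` be the golden ratio, `K = ℚ(√5)` and `t = π / (2 log φ)`. The Hecke character
`(β) ↦ (β mod √5 / 5) |β / β'|^{it}` of `K` of conductor `(√5)` gives a Maass form `f` of level `25`,
weight `0` and trivial character. Its automorphic representation `π'` of `PGL₂(𝔸)` is a principal
series at every place: at infinity because `K` is real, and at `5` because the local character
factors through the norm. The global root number of `π' ⊗ η` is therefore the same for every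
quadratic character `η`; it is `-1`, and so `L(1/2, π' ⊗ η_E) = 0` for every quadratic field `E`.
-/

set_option autoImplicit false

open Filter Topology Pool.Agent.TH625.GM
open scoped Real UpperHalfPlane

namespace Pool.Agent.Results.MP_17f4cb_nt.CentralZerosAllTwists

/-- There is a Hecke-Maass cusp form `f` of level `25`, weight `0`, trivial character and Laplace
eigenvalue `1/4 + t²`, `t = π / (2 log φ)`, such that `L(1/2, f ⊗ χ) = 0` for every primitive
quadratic Dirichlet character `χ` (and for `χ = 1`). So the proportion of the quadratic fields `E`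
with `L(1/2, f ⊗ η_E) ≠ 0` is `0` and does not tend to `1/2`. -/
theorem result : ∃ (f : ℍ → ℂ) (a : ℕ → ℂ),
    IsHeckeMaassForm 25 (π / (2 * Real.log Real.goldenRatio)) f a ∧
    (∀ (q : ℕ) (χ : DirichletCharacter ℂ q), q ≠ 0 → χ.IsPrimitive → χ ^ 2 = 1 →
      CentralValueZero 25 a χ) ∧
    (∀ x : ℝ, 3 < x → 0 < countAll x) ∧
    Tendsto (fun x : ℝ => (countNonzero 25 a x : ℝ) / countAll x) atTop (𝓝 0) ∧
    ¬ Tendsto (fun x : ℝ => (countNonzero 25 a x : ℝ) / countAll x) atTop (𝓝 (1 / 2)) := by
  have h0 : Tendsto (fun x : ℝ => (countNonzero 25 a x : ℝ) / countAll x) atTop (𝓝 0) := by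
    simp only [countNonzero_eq, Nat.cast_zero, zero_div]
    exact tendsto_const_nhds
  refine ⟨fM, a, form, ?_, ncard_pos, h0, ?_⟩
  · intro q χ hq hp h2
    have : NeZero q := ⟨hq⟩
    exact centralValueZero q χ hp h2
  · intro h
    have := tendsto_nhds_unique h h0
    norm_num at this

end Pool.Agent.Results.MP_17f4cb_nt.CentralZerosAllTwists
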